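import Pool.Agent.P.MP_cd312e_ag.Tr.MWDefs
import Pool.Agent.P.MP_898f40_nt.Newt

/-!
Purity, and the monodromy-weight assertion for a graded space.
-/

open Module LinearMap Polynomial Pool.Agent.P.MP_898f40_nt Pool.Agent.P.MP_898f40_nt.Bet

namespace Pool.Agent.P.MP_cd312e_ag.Tr

variable {K V U : Type} [Field K] [AddCommGroup V] [Module K V] [AddCommGroup U] [Module K U]

theorem mw_pow {f : End K V} {g : End K U} {π : V →ₗ[K] U} (h : ∀ v, π (f v) = g (π v)) (n : ℕ)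
    (v : V) : π ((f ^ n) v) = (g ^ n) (π v) := by
  induction n with
  | zero => rfl
  | succ n ih => rw [pow_succ', pow_succ', End.mul_apply, End.mul_apply, h, ih]

theorem mw_aeval {f : End K V} {g : End K U} {π : V →ₗ[K] U} (h : ∀ v, π (f v) = g (π v))
    (P : K[X]) (v : V) : π (aeval f P v) = aeval g P (π v) := by
  induction P using Polynomial.induction_on' with
  | add P Q hP hQ => simp only [map_add, LinearMap.add_apply, hP, hQ]
  | monomial n a =>
    simp only [aeval_monomial, End.mul_apply, Module.algebraMap_end_apply, map_smul, mw_pow h]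

theorem mw_restrict {f : End K V} {S : Submodule K V} (hS : ∀ v ∈ S, f v ∈ S) (P : K[X])
    (v : S) : aeval f P v.1 = (aeval (f.restrict hS) P v).1 :=
  (mw_aeval (f := f.restrict hS) (g := f) (π := S.subtype) (fun _ => rfl) P v).symm

theorem mw_ind {f : End K V} {S B : Submodule K V} (hS : ∀ v ∈ S, f v ∈ S)
    (hB : ∀ v ∈ B, f v ∈ B) {P : K[X]} (h : aeval (sq f hS hB) P = 0) :
    ∀ v ∈ S, aeval f P v ∈ B := by
  intro v hv
  have := mw_aeval (f := f.restrict hS) (g := sq f hS hB) (π := Submodule.mkQ _)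
    (fun _ => rfl) P ⟨v, hv⟩
  rw [h, LinearMap.zero_apply, Submodule.mkQ_apply, Submodule.Quotient.mk_eq_zero] at this
  rw [mw_restrict hS P ⟨v, hv⟩]
  exact this

theorem mw_coprime {f : End K V} {B : Submodule K V} (hB : ∀ v ∈ B, f v ∈ B) {P Q : K[X]}
    (h : IsCoprime P Q) {v : V} (h1 : aeval f P v ∈ B) (h2 : aeval f Q v = 0) : v ∈ B := by
  obtain ⟨a, b, hab⟩ := h
  have := LinearMap.congr_fun (congrArg (aeval f) hab) v
  rw [map_add, map_mul, map_mul, map_one, LinearMap.add_apply, End.mul_apply, End.mul_apply, h2,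
    map_zero, add_zero, End.one_apply] at this
  rw [← this, mw_restrict hB a ⟨_, h1⟩]
  exact Subtype.property _

theorem wt_coprime {q : ℕ} (hq : 2 ≤ q) {m m' : ℤ} (hm : m ≠ m') {g g' : ℚ[X]} (_h0 : g ≠ 0)
    (hg : ∀ z : ℂ, aeval z g = 0 → ‖z‖ ^ 2 = (q : ℝ) ^ m)
    (hg' : ∀ z : ℂ, aeval z g' = 0 → ‖z‖ ^ 2 = (q : ℝ) ^ m') : IsCoprime g g' := by
  rw [isCoprime_iff_aeval_ne_zero_of_isAlgClosed ℚ ℂ]
  intro z
  by_contra hc
  push Not at hc
  have h1 : (1 : ℝ) < q := by exact_mod_cast hq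
  exact hm (zpow_right_injective₀ (by linarith) h1.ne' ((hg z hc.1).symm.trans (hg' z hc.2)))

section graded

variable {E : ℤ → Submodule K V} {p : ℤ → End K V}

/-- The filtration attached to the grading. -/
def mwFil (p : ℤ → End K V) (t : ℤ) : Submodule K V := ⨅ a, ⨅ _ : a < -t, ker (p a)

theorem mem_mwFil {t : ℤ} {v : V} : v ∈ mwFil p t ↔ ∀ a < -t, p a v = 0 := by
  simp [mwFil, Submodule.mem_iInf]

theorem mw_comm (hp : ∀ a, IsProj (E a) (p a)) (ho : ∀ a a', a ≠ a' → ∀ v ∈ E a', p a v = 0)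
    (ht : ⨆ a, E a = ⊤) {T : End K V} {c : ℤ} (hT : ∀ a, ∀ v ∈ E a, T v ∈ E (a + c)) (a : ℤ)
    (v : V) : p (a + c) (T v) = T (p a v) := by
  have hv : v ∈ ⨆ a, E a := ht ▸ Submodule.mem_top
  induction hv using Submodule.iSup_induction' with
  | mem a' v hv =>
    rcases eq_or_ne a a' with rfl | h
    · rw [(hp _).map_id _ (hT a v hv), (hp _).map_id _ hv]
    · rw [ho _ _ (by omega) _ (hT a' v hv), ho _ _ h _ hv, map_zero]
  | zero => simp
  | add x y _ _ hx hy => simp only [map_add, hx, hy]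

theorem mw_sum (hp : ∀ a, IsProj (E a) (p a)) (ho : ∀ a a', a ≠ a' → ∀ v ∈ E a', p a v = 0)
    {s : Finset ℤ} (hs : ∀ a ∉ s, E a = ⊥) (ht : ⨆ a, E a = ⊤) (v : V) :
    ∑ a ∈ s, p a v = v := by
  have hv : v ∈ ⨆ a, E a := ht ▸ Submodule.mem_top
  induction hv using Submodule.iSup_induction' with
  | mem a' v hv =>
    rw [Finset.sum_eq_single a' (fun a _ h => ho _ _ h _ hv) fun h => ?_, (hp _).map_id _ hv]
    rw [hs a' h, Submodule.mem_bot] at hv
    rw [hv, map_zero]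
  | zero => simp
  | add x y _ _ hx hy => simp only [map_add, Finset.sum_add_distrib, hx, hy]

theorem mw_pow_mem {N : End K V} (hN : ∀ a, ∀ v ∈ E a, N v ∈ E (a + 2)) (r : ℕ) :
    ∀ a, ∀ v ∈ E a, (N ^ r) v ∈ E (a + 2 * r) := by
  intro a v hv
  induction r with
  | zero => simpa using hv
  | succ r ih =>
    rw [pow_succ', End.mul_apply, show a + 2 * ((r + 1 : ℕ) : ℤ) = a + 2 * r + 2 by push_cast; ring]
    exact hN _ _ ih

theorem mw_monFil (hp : ∀ a, IsProj (E a) (p a)) (ho : ∀ a a', a ≠ a' → ∀ v ∈ E a', p a v = 0)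
    {s : Finset ℤ} (hs : ∀ a ∉ s, E a = ⊥) (ht : ⨆ a, E a = ⊤) {N : End K V}
    (hN : ∀ a, ∀ v ∈ E a, N v ∈ E (a + 2)) :
    IsMonFil N (mwFil p) ↔ ∀ r : ℕ, Set.BijOn (N ^ r) (E (-r)) (E r) := by
  have hc : ∀ (r : ℕ) v, p r ((N ^ r) v) = (N ^ r) (p (-r) v) := fun r v => by
    rw [← mw_comm hp ho ht (mw_pow_mem hN r) (-r) v, show -(r : ℤ) + 2 * r = r by ring]
  have hm : ∀ r : ℕ, ∀ v ∈ E (-r), (N ^ r) v ∈ E r := fun r v hv => by
    have := mw_pow_mem hN r _ v hv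
    rwa [show -(r : ℤ) + 2 * r = r by ring] at this
  have hE : ∀ a, ∀ v ∈ E a, v ∈ mwFil p (-a) := fun a v hv =>
    mem_mwFil.2 fun a' h => ho _ _ (by omega) v hv
  refine ⟨fun h r => ⟨hm r, fun v hv w hw e => ?_, fun x hx => ?_⟩, fun h => ?_⟩
  · have h1 : v - w ∈ E (-r) := sub_mem hv hw
    have h2 := h.inj r (v - w) (by simpa using hE _ _ h1)
      (by rw [map_sub, e, sub_self]; exact zero_mem _)
    rw [← sub_eq_zero, ← (hp _).map_id _ h1]
    exact mem_mwFil.1 h2 _ (by omega)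
  · obtain ⟨v, -, h2⟩ := h.surj r x (hE _ _ hx)
    refine ⟨p (-r) v, (hp _).map_mem v, ?_⟩
    have h3 := mem_mwFil.1 h2 r (by omega)
    rw [map_sub, (hp _).map_id _ hx, hc, sub_eq_zero] at h3
    exact h3.symm
  obtain ⟨b, hb⟩ := s.bddAbove
  obtain ⟨c, hc'⟩ := s.bddBelow
  refine ⟨fun t t' htt v hv => mem_mwFil.2 fun a ha => mem_mwFil.1 hv a (by omega),
    ⟨-b - 1, eq_bot_iff.2 fun v hv => ?_⟩, ⟨-c, eq_top_iff.2 fun v _ => mem_mwFil.2 fun a ha => ?_⟩,
    fun t v hv => mem_mwFil.2 fun a ha => ?_, fun r v hv h1 => mem_mwFil.2 fun a ha => ?_,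
    fun r x hx => ?_⟩
  · rw [Submodule.mem_bot, ← mw_sum hp ho hs ht v]
    exact Finset.sum_eq_zero fun a ha => mem_mwFil.1 hv a (by have := hb ha; omega)
  · have h1 := (hp a).map_mem v
    rwa [hs a fun h => by have := hc' h; omega, Submodule.mem_bot] at h1
  · rw [show a = a - 2 + 2 by ring, mw_comm hp ho ht hN, mem_mwFil.1 hv _ (by omega), map_zero]
  · rcases eq_or_ne a (-r) with rfl | h2
    · refine (h r).injOn ((hp _).map_mem v) (zero_mem _) ?_
      rw [← hc, mem_mwFil.1 h1 _ (by omega), map_zero]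
    · exact mem_mwFil.1 hv a (by omega)
  · obtain ⟨v, hv, e⟩ := (h r).surjOn ((hp r).map_mem x)
    refine ⟨v, by simpa using hE _ _ hv, mem_mwFil.2 fun a ha => ?_⟩
    rw [e, map_sub]
    rcases eq_or_ne a r with rfl | h2
    · rw [(hp _).map_id _ ((hp _).map_mem x), sub_self]
    · rw [mem_mwFil.1 hx a (by omega), ho _ _ h2 _ ((hp _).map_mem x), sub_self]

end graded

variable [CharZero K] [FiniteDimensional K V] [FiniteDimensional K U]

theorem pure_poly {q : ℕ} {m : ℤ} {f : End K V} (h : Pure q m f) :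
    ∃ g : ℚ[X], g ≠ 0 ∧ aeval f (g.map (algebraMap ℚ K)) = 0 ∧
      ∀ z : ℂ, aeval z g = 0 → ‖z‖ ^ 2 = (q : ℝ) ^ m := by
  set L := AlgebraicClosure K
  set R := (f.charpoly.map (algebraMap K L)).roots with hR
  have hr : ∀ μ ∈ R, aeval μ f.charpoly = 0 := fun μ hμ => by
    have := isRoot_of_mem_roots hμ
    rwa [IsRoot, eval_map_algebraMap] at this
  refine ⟨(R.map (minpoly ℚ)).prod, Multiset.prod_ne_zero fun h0 => ?_, ?_, fun z hz => ?_⟩
  · obtain ⟨μ, hμ, e⟩ := Multiset.mem_map.1 h0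
    exact minpoly.ne_zero (h μ (hr μ hμ)).1.isIntegral e
  · refine aeval_eq_zero_of_dvd_aeval_eq_zero ?_ (LinearMap.aeval_self_charpoly f)
    rw [← map_dvd_map' (algebraMap K L), Polynomial.map_map,
      (IsAlgClosed.splits _).eq_prod_roots_of_monic (f.charpoly_monic.map _),
      Polynomial.map_multiset_prod, Multiset.map_map]
    refine Multiset.prod_dvd_prod_of_dvd _ _ fun μ _ => ?_
    rw [dvd_iff_isRoot, Function.comp_apply, ← IsScalarTower.algebraMap_eq, IsRoot,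
      eval_map_algebraMap]
    exact minpoly.aeval ℚ μ
  · rw [map_multiset_prod, Multiset.prod_eq_zero_iff, Multiset.map_map] at hz
    obtain ⟨μ, hμ, e⟩ := Multiset.mem_map.1 hz
    exact (h μ (hr μ hμ)).2 z e

theorem pure_of_poly {q : ℕ} {m : ℤ} {f : End K V} {g : ℚ[X]} (h0 : g ≠ 0)
    (h1 : aeval f (g.map (algebraMap ℚ K)) = 0)
    (h2 : ∀ z : ℂ, aeval z g = 0 → ‖z‖ ^ 2 = (q : ℝ) ^ m) : Pure q m f := by
  intro μ hμ
  have h3 := aeval_eq_zero_of_dvd_aeval_eq_zero (charpoly_dvd_pow f _ h1) hμ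
  rw [map_pow, aeval_map_algebraMap] at h3
  have h4 := eq_zero_of_pow_eq_zero h3
  exact ⟨⟨g, h0, h4⟩, fun z hz =>
    h2 z (aeval_eq_zero_of_dvd_aeval_eq_zero (minpoly.dvd ℚ μ h4) hz)⟩

theorem Pure.quot {q : ℕ} {m : ℤ} {f : End K V} {g : End K U} (h : Pure q m f) (π : V →ₗ[K] U)
    (hπ : Function.Surjective π) (c : ∀ v, π (f v) = g (π v)) : Pure q m g := by
  obtain ⟨P, h0, h1, h2⟩ := pure_poly h
  refine pure_of_poly h0 (LinearMap.ext fun u => ?_) h2
  obtain ⟨v, rfl⟩ := hπ u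
  rw [← mw_aeval c, h1, LinearMap.zero_apply, map_zero, LinearMap.zero_apply]

theorem monWt_iff {q : ℕ} (hq : 2 ≤ q) (m : ℤ) (N F : End K V) (E : ℤ → Submodule K V)
    (p : ℤ → End K V) (hp : ∀ a, IsProj (E a) (p a))
    (ho : ∀ a a', a ≠ a' → ∀ v ∈ E a', p a v = 0) (s : Finset ℤ) (hs : ∀ a ∉ s, E a = ⊥)
    (ht : ⨆ a, E a = ⊤) (hN : ∀ a, ∀ v ∈ E a, N v ∈ E (a + 2))
    (hF : ∀ a, ∀ v ∈ E a, F v ∈ E a) (hw : ∀ a, Pure q (m - a) (F.restrict (hF a))) :
    MonWt q m N F ↔ ∀ r : ℕ, Set.BijOn (N ^ r) (E (-r)) (E r) := by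
  have hc : ∀ a v, p a (F v) = F (p a v) := fun a v => by
    simpa using mw_comm (c := 0) hp ho ht (fun a v hv => by simpa using hF a v hv) a v
  rw [← mw_monFil hp ho hs ht hN]
  refine ⟨fun ⟨Fil, hM, hS, hP⟩ => ?_, fun h => ?_⟩
  · choose ψ ψ0 ψ1 ψ2 using fun a => pure_poly (hw a)
    choose χ χ0 χ1 χ2 using fun t => pure_poly (hP t)
    have hψ : ∀ a, ∀ v ∈ E a, aeval F ((ψ a).map (algebraMap ℚ K)) v = 0 := fun a v hv => by
      rw [mw_restrict (hF a) _ ⟨v, hv⟩, ψ1]; rfl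
    have hχ := fun t => mw_ind (hS t) (hS (t - 1)) (χ1 t)
    have hco : ∀ t a, t ≠ -a →
        IsCoprime ((χ t).map (algebraMap ℚ K)) ((ψ a).map (algebraMap ℚ K)) := fun t a h =>
      (wt_coprime hq (by omega) (χ0 t) (χ2 t) (ψ2 a)).map (mapRingHom (algebraMap ℚ K))
    obtain ⟨b, hb⟩ := hM.bot
    obtain ⟨c, hc'⟩ := hM.top
    have h1 : ∀ a, ∀ v ∈ E a, v ∈ Fil (-a) := by
      intro a v hv
      have : ∀ n : ℕ, v ∈ Fil (-a + n) → v ∈ Fil (-a) := by
        intro n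
        induction n with
        | zero => simp
        | succ n ih =>
          intro h
          refine ih ?_
          rw [show -a + (n : ℤ) = -a + (n + 1 : ℕ) - 1 by push_cast; ring]
          exact mw_coprime (hS _) (hco _ a (by omega)) (hχ _ v h) (hψ a v hv)
      exact this (c + a).toNat (hM.mono (show c ≤ _ by omega) (hc' ▸ Submodule.mem_top))
    have h2 : ∀ n : ℕ, ∀ t ≤ b + n, ∀ v ∈ Fil t, v ∈ mwFil p t := by
      intro n
      induction n with
      | zero =>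
        intro t h v hv
        have := hM.mono (show t ≤ b by omega) hv
        rw [hb, Submodule.mem_bot] at this
        rw [this]; exact zero_mem _
      | succ n ih =>
        intro t h v hv
        refine mem_mwFil.2 fun a ha => ?_
        have h3 := mem_mwFil.1 (ih (t - 1) (by omega) _ (hχ t v hv)) a (by omega)
        rw [mw_aeval (hc a)] at h3
        exact mw_coprime (B := ⊥) (fun v hv => by rw [(Submodule.mem_bot K).1 hv, map_zero]; rfl)
          (hco t a (by omega)) h3 (hψ a _ ((hp a).map_mem v))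
    have e : Fil = mwFil p := by
      funext t
      refine le_antisymm (h2 (t - b).toNat t (by omega)) fun v hv => ?_
      rw [← mw_sum hp ho hs ht v]
      refine sum_mem fun a _ => ?_
      rcases lt_or_ge a (-t) with h | h
      · rw [mem_mwFil.1 hv a h]; exact zero_mem _
      · exact hM.mono (show -a ≤ t by omega) (h1 a _ ((hp a).map_mem v))
    exact e ▸ hM
  · have hS : ∀ t, ∀ v ∈ mwFil p t, F v ∈ mwFil p t := fun t v hv =>
      mem_mwFil.2 fun a ha => by rw [hc, mem_mwFil.1 hv a ha, map_zero]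
    refine ⟨_, h, hS, fun t => ?_⟩
    have hle : E (-t) ≤ mwFil p t := fun v hv => mem_mwFil.2 fun a h => ho _ _ (by omega) v hv
    have h1 := hw (-t)
    rw [sub_neg_eq_add] at h1
    refine h1.quot ((Submodule.mkQ _).comp (Submodule.inclusion hle)) (fun x => ?_) fun _ => rfl
    obtain ⟨v, rfl⟩ := Submodule.mkQ_surjective _ x
    refine ⟨⟨p (-t) v, (hp _).map_mem _⟩, (Submodule.Quotient.eq _).2 ?_⟩
    refine mem_mwFil.2 fun a ha => ?_
    change p a (p (-t) v - v) = 0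
    rw [map_sub]
    rcases eq_or_ne a (-t) with rfl | h2
    · rw [(hp _).map_id _ ((hp _).map_mem _), sub_self]
    · rw [mem_mwFil.1 v.2 a (by omega), ho _ _ h2 _ ((hp _).map_mem _), sub_self]

end Pool.Agent.P.MP_cd312e_ag.Tr
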