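import Pool.Agent.P.MP_898f40_nt.Bet.Pg

/-! The monodromy filtration, purity, and the monodromy-weight assertion. -/

set_option autoImplicit false

namespace Pool.Agent.P.MP_cd312e_ag.Tr

open Module Polynomial Pool.Agent.P.MP_898f40_nt.Bet

variable {K V : Type} [Field K] [AddCommGroup V] [Module K V]

/-- `Fil` is the monodromy filtration of `N`. -/
structure IsMonFil (N : End K V) (Fil : ℤ → Submodule K V) : Prop where
  mono : Monotone Fil
  bot : ∃ s, Fil s = ⊥
  top : ∃ s, Fil s = ⊤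
  map : ∀ s, ∀ v ∈ Fil s, N v ∈ Fil (s - 2)
  inj : ∀ s : ℕ, ∀ v ∈ Fil s, (N ^ s) v ∈ Fil (-s - 1) → v ∈ Fil (s - 1)
  surj : ∀ s : ℕ, ∀ x ∈ Fil (-s), ∃ v ∈ Fil s, x - (N ^ s) v ∈ Fil (-s - 1)

/-- The eigenvalues of `f` are algebraic numbers with all conjugates of absolute value
`q ^ (m / 2)`. -/
def Pure [CharZero K] [FiniteDimensional K V] (q : ℕ) (m : ℤ) (f : End K V) : Prop :=
  ∀ μ : AlgebraicClosure K, aeval μ f.charpoly = 0 →
    IsAlgebraic ℚ μ ∧ ∀ z : ℂ, aeval z (minpoly ℚ μ) = 0 → ‖z‖ ^ 2 = (q : ℝ) ^ m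

/-- The monodromy-weight assertion: `F` is pure of weight `m + s` on the `s`-th graded piece of
the monodromy filtration of `N`. -/
def MonWt [CharZero K] [FiniteDimensional K V] (q : ℕ) (m : ℤ) (N F : End K V) : Prop :=
  ∃ Fil, IsMonFil N Fil ∧ ∃ h : ∀ s, ∀ v ∈ Fil s, F v ∈ Fil s,
    ∀ s, Pure q (m + s) (sq F (h s) (h (s - 1)))

/-- The monodromy-weight assertion for a subquotient with its two operators. -/
def MW [CharZero K] (q : ℕ) (m : ℤ) (T : Two K V) : Prop := MonWt q m T.N2 T.F2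

/-- Frobenius is pure of weight `j` on the cohomology of the strata in degree `j`. -/
def Weil [CharZero K] [FiniteDimensional K V] {q n : ℕ} (X : Pg K V q n) : Prop :=
  ∀ (a : ℕ) (j : ℤ), Pure q j (X.F.restrict (X.F_H a j))

end Pool.Agent.P.MP_cd312e_ag.Tr
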