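import Pool.Agent.P.MP_cd312e_ag.Tr.MW
import Pool.Agent.P.MP_cd312e_ag.Sl2
import Pool.Agent.P.MP_898f40_nt.Bet.WMTr

/-! The monodromy-weight assertion on the second page, and its transfer. -/

set_option autoImplicit false

namespace Pool.Agent.P.MP_cd312e_ag.Tr

open Module LinearMap Polynomial Pool.Agent.P.MP_898f40_nt.Bet Pool.Agent.P.MP_898f40_nt.Bet.Page
open Pool.Agent.P.MP_898f40_nt.Bet.Page.LowX

variable {K : Type} [Field K] [CharZero K] {q n : ℕ} {X : Page K q n}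

variable (X) in
/-- purity of Frobenius on the strata -/
def WeilP : Prop :=
  ∀ (a : ℕ) (j : ℤ), Pure q j (X.F.restrict (p := X.H a j) (Page.comm_mem X.AF X.JF))

omit [CharZero K] in
lemma mem_P {a : ℤ} {x : ℕ → X.S} :
    x ∈ X.P a ↔ ∀ k : ℕ, X.A (x k) = ((a + 2 * k : ℤ) : K) • x k := by
  simp only [Page.P, Submodule.mem_pi, Set.mem_univ, true_imp_iff, End.mem_eigenspace_iff]

variable (X) in
/-- column `a` of the second page -/
def E (i a : ℤ) : Submodule K (X.E2 i) :=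
  ((X.P a).comap (X.Z i).subtype).map (Submodule.mkQ _)

/-- projection of the first page to a column -/
def col (G : RZW.Grad X.A) (a : ℤ) : End K (ℕ → X.S) :=
  LinearMap.pi fun k => G.π (a + 2 * k) ∘ₗ LinearMap.proj k

omit [CharZero K] in
lemma col_apply (G : RZW.Grad X.A) (a : ℤ) (x : ℕ → X.S) (k : ℕ) :
    col G a x k = G.π (a + 2 * k) (x k) := rfl

lemma col_C (G : RZW.Grad X.A) (a : ℤ) {i : ℤ} {x : ℕ → X.S} (hx : x ∈ X.C i) :
    col G a x ∈ X.C i := mem_C.2 fun k => T_map (f := G.π (a + 2 * k)) (fun b hb y hy => by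
  have h : X.A y = ((b : ℤ) : K) • y := by simpa using (mem_H.1 hy).1
  by_cases e : a + 2 * k = b
  · rw [e, G.same _ _ h]
    exact mem_T hb rfl hy
  · rw [G.ne _ _ _ h e]
    exact zero_mem _) (mem_C.1 hx k)

omit [CharZero K] in
lemma d_col (G : RZW.Grad X.A) (a : ℤ) (x : ℕ → X.S) :
    X.d (col G a x) = col G (a + 1) (X.d x) := by
  funext k
  have h1 := G.comm X.ρ 1 (fun y => by simpa using LinearMap.congr_fun X.Aρ y) (a + 2 * k) (x k)
  have h2 := G.comm X.γ (-1) (fun y => by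
    simpa [sub_eq_add_neg] using LinearMap.congr_fun X.Aγ y) (a + 2 * (k + 1 : ℕ)) (x (k + 1))
  rw [d_apply, col_apply, col_apply, col_apply, d_apply, map_add, ← h1, ← h2]
  congr 3 <;> push_cast <;> ring

lemma col_Z (G : RZW.Grad X.A) (a i : ℤ) : ∀ x ∈ X.Z i, col G a x ∈ X.Z i := fun x hx =>
  ⟨col_C G a hx.1, show X.d _ = 0 by rw [d_col, show X.d x = 0 from hx.2, map_zero]⟩

lemma col_B (G : RZW.Grad X.A) (a i : ℤ) : ∀ x ∈ X.B i, col G a x ∈ X.B i := by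
  rintro _ ⟨w, hw, rfl⟩
  exact ⟨col G (a - 1) w, col_C G _ hw, by rw [d_col, sub_add_cancel]⟩

lemma CP {i a : ℤ} {x : ℕ → X.S} (hx : x ∈ X.C i) (hP : x ∈ X.P a) (k : ℕ) :
    x k = 0 ∨ ∃ b : ℕ, k ≤ b ∧ b ≤ n ∧ a + 2 * k = b ∧ x k ∈ X.H b (i - b) := by
  by_cases h : a + 2 * k < k
  · exact Or.inl (T_eig h (mem_C.1 hx k) (mem_P.1 hP k))
  obtain ⟨b, hb⟩ : ∃ b : ℕ, a + 2 * k = b := ⟨(a + 2 * k).toNat, by omega⟩
  have h1 := T_H (a := b) (mem_C.1 hx k) (by rw [mem_P.1 hP k, hb, Int.cast_natCast])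
  by_cases h2 : b ≤ n
  · exact Or.inr ⟨b, by omega, h2, hb, h1⟩
  · exact Or.inl (H_bot (by omega) h1)

omit [CharZero K] in
lemma aeval_Fr (P : K[X]) (x : ℕ → X.S) (k : ℕ) :
    aeval X.Fr P x k = aeval ((q : K) ^ k • X.F) P (x k) :=
  mw_aeval (f := X.Fr) (π := LinearMap.proj k) (fun _ => rfl) P x

omit [CharZero K] in
lemma N2_pow (i : ℤ) (r : ℕ) (x : X.Z i) : ∃ h : (X.N ^ r) x.1 ∈ X.Z i,
    (X.N2 i ^ r) (Submodule.mkQ _ x) = Submodule.mkQ _ ⟨_, h⟩ := by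
  have h1 := mw_pow (f := X.N.restrict (chain dN (fun _ => N_C) i).1) (g := X.N)
    (π := (X.Z i).subtype) (fun _ => rfl) r x
  have h2 := mw_pow (f := X.N.restrict (chain dN (fun _ => N_C) i).1) (g := X.N2 i)
    (π := Submodule.mkQ _) (fun _ => rfl) r x
  exact ⟨h1 ▸ Subtype.property _, h2.symm.trans (congrArg _ (Subtype.ext h1))⟩

omit [CharZero K] in
lemma F_E (i a : ℤ) : ∀ v ∈ E X i a, X.F2 i v ∈ E X i a := by
  rintro _ ⟨x, hx, rfl⟩
  refine ⟨⟨X.Fr x.1, (chain dFr (fun _ => Fr_C) i).1 _ x.2⟩, mem_P.2 fun k => ?_, rfl⟩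
  have h := LinearMap.congr_fun X.AF (x.1 k)
  rw [End.mul_apply, End.mul_apply, (mem_P (x := x.1)).1 hx k] at h
  change X.A ((q : K) ^ k • X.F (x.1 k)) = _ • (q : K) ^ k • X.F (x.1 k)
  rw [map_smul, h, map_smul, smul_comm]

omit [CharZero K] in
lemma N_E (i a : ℤ) : ∀ v ∈ E X i a, X.N2 i v ∈ E X i (a + 2) := by
  rintro _ ⟨x, hx, rfl⟩
  refine ⟨⟨X.N x.1, (chain dN (fun _ => N_C) i).1 _ x.2⟩, mem_P.2 fun k => ?_, rfl⟩
  refine (mem_P.1 hx (k + 1)).trans ?_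
  congr 2
  push_cast
  ring

lemma pure_E (hq : 2 ≤ q) (hp : WeilP X) (i a : ℤ) :
    Pure q (i - a) ((X.F2 i).restrict (F_E i a)) := by
  choose g g0 g1 g2 using fun b : ℕ => pure_poly (hp b (i - b))
  have hq0 : (q : ℚ) ≠ 0 := by positivity
  let h : ℕ → ℚ[X] := fun k =>
    if 0 ≤ a + 2 * k then (g (a + 2 * k).toNat).comp (C ((q : ℚ) ^ k)⁻¹ * Polynomial.X) else 1
  refine pure_of_poly (g := ∏ k ∈ Finset.range (n + 1), h k) ?_ ?_ ?_
  · refine Finset.prod_ne_zero_iff.2 fun k _ => ?_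
    simp only [h]
    split_ifs
    · rw [Ne, comp_C_mul_X_eq_zero_iff (mem_nonZeroDivisors_of_ne_zero (by positivity))]
      exact g0 _
    · exact one_ne_zero
  · ext ⟨_, x, hx, rfl⟩
    rw [← mw_restrict (F_E i a), ← mw_aeval (f := X.Fr.restrict (chain dFr (fun _ => Fr_C) i).1)
      (g := X.F2 i) (π := Submodule.mkQ _) (fun _ => rfl)]
    refine (congrArg _ (Subtype.ext ?_)).trans (map_zero _)
    rw [← mw_restrict]
    funext k
    rw [aeval_Fr]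
    rcases CP x.2.1 hx k with h0 | ⟨b, h1, h2, h3, h4⟩
    · rw [h0, map_zero]
      rfl
    · obtain ⟨R, hR⟩ := Finset.dvd_prod_of_mem h (Finset.mem_range.2 (show k < n + 1 by omega))
      have h5 : aeval ((q : K) ^ k • X.F) ((h k).map (algebraMap ℚ K)) (x.1 k) = 0 := by
        have hK : (q : K) ^ k ≠ 0 := pow_ne_zero _ (Nat.cast_ne_zero.2 (by omega))
        have e : aeval ((q : K) ^ k • X.F)
            ((C ((q : ℚ) ^ k)⁻¹ * Polynomial.X).map (algebraMap ℚ K)) = X.F := by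
          simp [Algebra.algebraMap_eq_smul_one, smul_smul, hK]
        simp only [h]
        rw [if_pos (by omega), h3, Int.toNat_natCast, Polynomial.map_comp, aeval_comp, e,
          mw_restrict (comm_mem X.AF X.JF) _ ⟨_, h4⟩, g1]
        rfl
      rw [hR, mul_comm, Polynomial.map_mul, map_mul, End.mul_apply, h5, map_zero]
      rfl
  · intro z hz
    rw [map_prod, Finset.prod_eq_zero_iff] at hz
    obtain ⟨k, -, hk⟩ := hz
    simp only [h] at hk
    split_ifs at hk with h1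
    · rw [aeval_comp] at hk
      have h2 := g2 _ _ hk
      have hR : (q : ℝ) ≠ 0 := by positivity
      simp only [map_mul, aeval_C, aeval_X, norm_mul, eq_ratCast, Rat.cast_inv, Rat.cast_pow,
        Rat.cast_natCast, norm_inv, norm_pow, Complex.norm_natCast] at h2
      rw [show i - a = (i - ((a + 2 * k).toNat : ℕ)) + (k * 2 : ℕ) by push_cast; omega,
        zpow_add₀ hR, ← h2, zpow_natCast, pow_mul]
      field_simp
    · simp at hk

theorem monWt_iff_wm (hq : 2 ≤ q) (hp : WeilP X) (i : ℤ) :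
    MonWt q i (X.N2 i) (X.F2 i) ↔ ∀ r : ℕ,
      (∀ x ∈ X.Z i ⊓ X.P (-r), (X.N ^ r) x ∈ X.B i → x ∈ X.B i) ∧
        ∀ y ∈ X.Z i ⊓ X.P r, ∃ x ∈ X.Z i ⊓ X.P (-r), (X.N ^ r) x - y ∈ X.B i := by
  obtain ⟨G⟩ := RZW.exists_grad X.A (by
    rw [eq_top_iff, ← X.top]
    exact iSup₂_le fun a _ => iSup_le fun j => le_iSup_of_le (a : ℤ) (by simp))
  have key : ∀ i, MonWt q i (X.N2 i) (X.F2 i) ↔
      ∀ r : ℕ, Set.BijOn (X.N2 i ^ r) (E X i (-r)) (E X i r) := fun i => by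
    refine monWt_iff hq i _ _ (E X i) (fun a => ind (col G a) (col_Z G a i) (col_B G a i))
      (fun a => ⟨?_, ?_⟩) ?_ (Finset.Icc (-n) n) ?_ ?_ (N_E i) (F_E i) (pure_E hq hp i)
    · intro z
      obtain ⟨x, rfl⟩ := Submodule.mkQ_surjective _ z
      exact ⟨⟨_, col_Z G a i _ x.2⟩, mem_P.2 fun k => G.wt _ _, rfl⟩
    · rintro _ ⟨x, hx, rfl⟩
      exact congrArg (Submodule.mkQ _) (Subtype.ext (funext fun k => G.same _ _ (mem_P.1 hx k)))
    · rintro a a' h _ ⟨x, hx, rfl⟩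
      exact (congrArg (Submodule.mkQ _) (Subtype.ext (funext fun k =>
        G.ne _ _ _ (mem_P.1 hx k) (by omega)))).trans (map_zero _)
    · intro a ha
      rw [eq_bot_iff]
      rintro _ ⟨x, hx, rfl⟩
      refine (congrArg (Submodule.mkQ _) (Subtype.ext (_root_.funext fun k => ?_))).trans
        (map_zero _)
      refine (CP x.2.1 hx k).resolve_right fun ⟨b, h1, h2, h3, _⟩ => ha ?_
      rw [Finset.mem_Icc]
      omega
    · rw [eq_top_iff]
      intro z _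
      obtain ⟨x, rfl⟩ := Submodule.mkQ_surjective _ z
      have e : x = ∑ a ∈ Finset.Icc (-n : ℤ) n, ⟨_, col_Z G a i _ x.2⟩ := by
        refine Subtype.ext (funext fun k => ?_)
        have h1 : (∑ a ∈ Finset.Icc (-n : ℤ) n, G.π (a + 2 * k) - 1) (x.1 k) ∈
            (⊥ : Submodule K X.S) := T_map (fun b hb y hy => by
          by_cases h2 : b ≤ n
          · have h : X.A y = ((b : ℤ) : K) • y := by simpa using (mem_H.1 hy).1
            rw [LinearMap.sub_apply, LinearMap.sum_apply, Finset.sum_eq_single ((b : ℤ) - 2 * k)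
              (fun a _ ha => G.ne _ _ _ h (by omega))
              (fun ha => (ha (Finset.mem_Icc.2 (by omega))).elim), sub_add_cancel, G.same _ _ h]
            exact sub_self y
          · rw [H_bot (by omega) hy, map_zero]
            rfl) (mem_C.1 x.2.1 k)
        rw [Submodule.coe_sum, Finset.sum_apply]
        rw [LinearMap.sub_apply, LinearMap.sum_apply, Submodule.mem_bot, sub_eq_zero] at h1
        exact h1.symm
      rw [e, map_sum]
      exact sum_mem fun a _ => Submodule.mem_iSup_of_mem a ⟨_, mem_P.2 fun k => G.wt _ _, rfl⟩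
  rw [key]
  refine ⟨fun h r => ⟨fun x hx hN => ?_, fun y hy => ?_⟩, fun h r => ⟨?_, ?_, ?_⟩⟩
  · obtain ⟨h1, h2⟩ := N2_pow i r ⟨x, hx.1⟩
    exact (Submodule.Quotient.mk_eq_zero ((X.B i).comap (X.Z i).subtype)).1
      ((h r).injOn ⟨⟨x, hx.1⟩, hx.2, rfl⟩ (zero_mem _)
      (by rw [h2, map_zero]; exact (Submodule.Quotient.mk_eq_zero _).2 hN))
  · obtain ⟨_, ⟨x, hx, rfl⟩, e⟩ := (h r).surjOn ⟨⟨y, hy.1⟩, hy.2, rfl⟩
    obtain ⟨h1, h2⟩ := N2_pow i r x
    exact ⟨x.1, ⟨x.2, hx⟩,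
      (Submodule.Quotient.eq ((X.B i).comap (X.Z i).subtype)).1 (h2.symm.trans e)⟩
  · intro v hv
    have := mw_pow_mem (N_E (X := X) i) r _ v hv
    rwa [show -(r : ℤ) + 2 * r = r by ring] at this
  · rintro _ ⟨x, hx, rfl⟩ _ ⟨y, hy, rfl⟩ e
    obtain ⟨h1, h2⟩ := N2_pow i r (x - y)
    rw [map_sub, map_sub, e, sub_self] at h2
    exact (Submodule.Quotient.eq _).2 ((h r).1 _ ⟨(x - y).2, sub_mem hx hy⟩
      ((Submodule.Quotient.mk_eq_zero ((X.B i).comap (X.Z i).subtype)).1 h2.symm))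
  · rintro _ ⟨y, hy, rfl⟩
    obtain ⟨x, hx, e⟩ := (h r).2 y.1 ⟨y.2, hy⟩
    obtain ⟨h1, h2⟩ := N2_pow i r ⟨x, hx.1⟩
    exact ⟨_, ⟨⟨x, hx.1⟩, hx.2, rfl⟩, h2.trans ((Submodule.Quotient.eq _).2 e)⟩

theorem transfer {K K' : Type} [Field K] [CharZero K] [Field K'] [CharZero K'] {q n : ℕ}
    (hq : 2 ≤ q) (X : Page K q n) (X' : Page K' q n) (hp : WeilP X) (hp' : WeilP X')
    (ht : ∀ (a : ℕ) (j : ℤ) (k : ℕ), ∃ τ : ℚ, X.tr a j 0 k = τ ∧ X'.tr a j 0 k = τ)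
    (hb : ∀ m, finrank K (X.E2 m) = finrank K' (X'.E2 m))
    (L : End K X.S) (hL : X.Lef L) (hlow : X.Low)
    (hW : ∀ m : ℤ, m ≤ n → MonWt q m (X.N2 m) (X.F2 m)) (m : ℤ) :
    MonWt q m (X'.N2 m) (X'.F2 m) :=
  have h := wm_transfer X X' ht hb (low' hL ((monWt_iff_wm hq hp n).1 (hW n le_rfl) 1).1
    (fun i r hi => ((monWt_iff_wm hq hp i).1 (hW i hi) r).2) hlow)
  (monWt_iff_wm hq hp' m).2 fun r => ⟨h.inj m r, h.surj m r⟩

end Pool.Agent.P.MP_cd312e_ag.Tr
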